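import Mathlib

/-!
# Sum triples of a finite abelian group (helper file for MP_466853_co.CayleySums)
-/

set_option autoImplicit false

open Finset

namespace Pool.Agent.Helper394.CS

variable {A : Type} [AddCommGroup A] [Fintype A] [DecidableEq A]

/-- The triples of elements of `A` whose sum is in `S`. -/
def sumTriples (S : Finset A) : Finset (Finset A) :=
  univ.filter fun e => e.card = 3 ∧ ∑ x ∈ e, x ∈ S

/-- Every four elements contain three with sum in `S`. -/
def Covers (S : Finset A) : Prop :=
  ∀ Q : Finset A, Q.card = 4 → ∃ e ∈ sumTriples S, e ⊆ Q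

theorem mem_sumTriples (S : Finset A) (e : Finset A) :
    e ∈ sumTriples S ↔ e.card = 3 ∧ ∑ x ∈ e, x ∈ S := by
  simp [sumTriples]

/-- the triples with a given sum -/
theorem card_one (s : A) :
    Fintype.card A * Fintype.card A ≤ 6 * (sumTriples ({s} : Finset A)).card
      + 3 * Fintype.card A := by
  classical
  let P : Finset (A × A) := univ.filter fun p => p.1 ≠ p.2 ∧ s - p.1 - p.2 ≠ p.1 ∧
    s - p.1 - p.2 ≠ p.2
  let f : A × A → Finset A := fun p => {p.1, p.2, s - p.1 - p.2}
  have hP : P.card ≤ 6 * (sumTriples ({s} : Finset A)).card := by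
    have himg : P.image f ⊆ sumTriples ({s} : Finset A) := by
      intro e he
      rw [mem_image] at he
      obtain ⟨p, hp, rfl⟩ := he
      simp only [P, mem_filter, mem_univ, true_and] at hp
      obtain ⟨h1, h2, h3⟩ := hp
      rw [mem_sumTriples]
      constructor
      · exact card_eq_three.2 ⟨p.1, p.2, s - p.1 - p.2, h1, h2.symm, h3.symm, rfl⟩
      · rw [mem_singleton]
        show ∑ x ∈ ({p.1, p.2, s - p.1 - p.2} : Finset A), x = s
        rw [sum_insert, sum_insert, sum_singleton]
        · abel
        · simpa using h3.symm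
        · simp only [mem_insert, mem_singleton, not_or]
          exact ⟨h1, h2.symm⟩
    have hfib : P.card ≤ 6 * (P.image f).card := by
      apply card_le_mul_card_image
      intro e he
      have he3 : e.card = 3 := ((mem_sumTriples _ _).1 (himg he)).1
      have hsub : P.filter (fun p => f p = e) ⊆ e.offDiag := by
        intro p hp
        simp only [P, mem_filter, mem_univ, true_and] at hp
        obtain ⟨⟨h1, -, -⟩, h4⟩ := hp
        rw [mem_offDiag]
        refine ⟨?_, ?_, h1⟩
        · rw [← h4]; simp [f]
        · rw [← h4]; simp [f]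
      calc (P.filter (fun p => f p = e)).card ≤ e.offDiag.card := card_le_card hsub
        _ = 6 := by rw [offDiag_card, he3]
    exact hfib.trans (Nat.mul_le_mul_left _ (card_le_card himg))
  have hB1 : (univ.filter fun p : A × A => p.1 = p.2).card ≤ Fintype.card A := by
    rw [← card_univ (α := A)]
    apply card_le_card_of_injOn (fun p => p.1) (fun p _ => mem_coe.2 (mem_univ _))
    intro p hp q hq h
    simp only [coe_filter, mem_univ, true_and, Set.mem_ofPred_eq] at hp hq
    ext
    · exact h
    · rw [← hp, ← hq]; exact h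
  have hB2 : (univ.filter fun p : A × A => s - p.1 - p.2 = p.1).card ≤ Fintype.card A := by
    rw [← card_univ (α := A)]
    apply card_le_card_of_injOn (fun p => p.1) (fun p _ => mem_coe.2 (mem_univ _))
    intro p hp q hq h
    simp only [coe_filter, mem_univ, true_and, Set.mem_ofPred_eq] at hp hq
    have h' : p.1 = q.1 := h
    have h2 : p.2 = s - p.1 - p.1 := by
      have := sub_eq_iff_eq_add.1 hp
      rw [this]; abel
    have h3 : q.2 = s - q.1 - q.1 := by
      have := sub_eq_iff_eq_add.1 hq
      rw [this]; abel
    ext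
    · exact h'
    · rw [h2, h3, h']
  have hB3 : (univ.filter fun p : A × A => s - p.1 - p.2 = p.2).card ≤ Fintype.card A := by
    rw [← card_univ (α := A)]
    apply card_le_card_of_injOn (fun p => p.2) (fun p _ => mem_coe.2 (mem_univ _))
    intro p hp q hq h
    simp only [coe_filter, mem_univ, true_and, Set.mem_ofPred_eq] at hp hq
    have h' : p.2 = q.2 := h
    have h2 : p.1 = s - p.2 - p.2 := by
      have := sub_eq_iff_eq_add.1 hp
      have h5 := sub_eq_iff_eq_add.1 this
      rw [h5]; abel
    have h3 : q.1 = s - q.2 - q.2 := by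
      have := sub_eq_iff_eq_add.1 hq
      have h5 := sub_eq_iff_eq_add.1 this
      rw [h5]; abel
    ext
    · rw [h2, h3, h']
    · exact h'
  have hcover : (univ : Finset (A × A)) ⊆ P ∪ ((univ.filter fun p : A × A => p.1 = p.2) ∪
      ((univ.filter fun p : A × A => s - p.1 - p.2 = p.1) ∪
        (univ.filter fun p : A × A => s - p.1 - p.2 = p.2))) := by
    intro p _
    simp only [P, mem_union, mem_filter, mem_univ, true_and]
    tauto
  have h1 := card_le_card hcover
  rw [card_univ, Fintype.card_prod] at h1
  have h2 := card_union_le P ((univ.filter fun p : A × A => p.1 = p.2) ∪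
      ((univ.filter fun p : A × A => s - p.1 - p.2 = p.1) ∪
        (univ.filter fun p : A × A => s - p.1 - p.2 = p.2)))
  have h3 := card_union_le (univ.filter fun p : A × A => p.1 = p.2)
      ((univ.filter fun p : A × A => s - p.1 - p.2 = p.1) ∪
        (univ.filter fun p : A × A => s - p.1 - p.2 = p.2))
  have h4 := card_union_le (univ.filter fun p : A × A => s - p.1 - p.2 = p.1)
        (univ.filter fun p : A × A => s - p.1 - p.2 = p.2)
  omega

/-- at least `|S| n (n - 3) / 6` triples have their sum in `S` -/
theorem card_lower (S : Finset A) :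
    S.card * (Fintype.card A * (Fintype.card A - 3)) ≤ 6 * (sumTriples S).card := by
  have h : (sumTriples S).card = ∑ s ∈ S, (sumTriples ({s} : Finset A)).card := by
    rw [card_eq_sum_card_fiberwise (f := fun e => ∑ x ∈ e, x) (t := S)
      (fun e he => ((mem_sumTriples _ _).1 he).2)]
    apply sum_congr rfl
    intro s hs
    congr 1
    ext e
    simp only [mem_filter, mem_sumTriples, mem_singleton]
    constructor
    · rintro ⟨⟨h1, -⟩, h3⟩; exact ⟨h1, h3⟩
    · rintro ⟨h1, h3⟩; exact ⟨⟨h1, h3 ▸ hs⟩, h3⟩
  rw [h, mul_sum, ← smul_eq_mul, ← sum_const]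
  apply sum_le_sum
  intro s _
  have h1 := card_one s
  rw [Nat.mul_sub]
  omega

/-- the complement of a covering set of sums has no four elements with sum in `3 A` -/
theorem no_four {S : Finset A} (hS : Covers S) (R : Finset A) (hR : R.card = 4)
    (hRS : ∀ x ∈ R, x ∉ S) (t : A) : ∑ x ∈ R, x ≠ 3 • t := by
  intro hsum
  have hinj : Function.Injective fun x : A => t - x := fun x y h => by simpa using h
  obtain ⟨e, he, heQ⟩ := hS (R.image fun x => t - x) (by rw [card_image_of_injective _ hinj, hR])
  rw [mem_sumTriples] at he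
  have hQ : ∑ x ∈ R.image (fun x => t - x), x = t := by
    rw [sum_image (fun x _ y _ h => hinj h), sum_sub_distrib, sum_const, hR, hsum]
    abel
  have hd : ((R.image fun x => t - x) \ e).card = 1 := by
    rw [card_sdiff_of_subset heQ, card_image_of_injective _ hinj, hR, he.1]
  obtain ⟨y, hy⟩ := card_eq_one.1 hd
  have hyQ : y ∈ R.image fun x => t - x := by
    have : y ∈ (R.image fun x => t - x) \ e := by rw [hy]; exact mem_singleton_self y
    exact (mem_sdiff.1 this).1
  obtain ⟨x, hx, rfl⟩ := mem_image.1 hyQ
  have h2 := sum_sdiff (f := fun x : A => x) heQ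
  rw [hy, sum_singleton, hQ] at h2
  have h3 : ∑ x ∈ e, x = x := by
    have : ∑ x ∈ e, x = t - (t - x) := by
      rw [eq_sub_iff_add_eq]
      rw [add_comm]; exact h2
    rw [this]; abel
  exact hRS x hx (h3 ▸ he.2)

/-- the complement of a covering set has at most `(n + 5) / 2` elements -/
theorem half {S : Finset A} (hS : Covers S) : 2 * Sᶜ.card ≤ Fintype.card A + 5 := by
  classical
  by_cases hK : Sᶜ.card ≤ 1
  · omega
  obtain ⟨a, ha, b, hb, hab⟩ := one_lt_card.1 (not_le.1 hK)
  set K' : Finset A := (Sᶜ).erase a |>.erase b with hK'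
  have hKcard : K'.card + 2 = Sᶜ.card := by
    have h1 : b ∈ (Sᶜ).erase a := mem_erase.2 ⟨hab.symm, hb⟩
    have h2 := card_erase_add_one h1
    have h3 := card_erase_add_one ha
    rw [hK']; omega
  -- for every `t`
  have key : ∀ t : A, 2 * K'.card ≤ Fintype.card A +
      (univ.filter fun x : A => 3 • t - a - b - x = x).card := by
    intro t
    have hinj : Function.Injective fun x : A => 3 • t - a - b - x := fun x y h => by simpa using h
    have h1 := card_union_add_card_inter K' (K'.image fun x => 3 • t - a - b - x)
    rw [card_image_of_injective _ hinj] at h1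
    have h2 : (K' ∪ K'.image fun x => 3 • t - a - b - x).card ≤ Fintype.card A :=
      card_le_univ _
    have h3 : (K' ∩ K'.image fun x => 3 • t - a - b - x).card ≤
        (univ.filter fun x : A => 3 • t - a - b - x = x).card := by
      apply card_le_card
      intro y hy
      rw [mem_inter, mem_image] at hy
      obtain ⟨hy, x, hx, hxy⟩ := hy
      rw [mem_filter]
      refine ⟨mem_univ _, ?_⟩
      have hyx : 3 • t - a - b - y = x := by rw [← hxy]; abel
      rw [hyx]
      by_contra hne
      rw [hK', mem_erase, mem_erase] at hx hy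
      have hR : ({a, b, x, y} : Finset A).card = 4 := by
        rw [card_insert_of_notMem, card_insert_of_notMem, card_insert_of_notMem, card_singleton]
        · simpa using hne
        · simp only [mem_insert, mem_singleton, not_or]
          exact ⟨fun h => hx.1 h.symm, fun h => hy.1 h.symm⟩
        · simp only [mem_insert, mem_singleton, not_or]
          exact ⟨hab, fun h => hx.2.1 h.symm, fun h => hy.2.1 h.symm⟩
      refine no_four hS {a, b, x, y} hR ?_ t ?_
      · intro z hz
        simp only [mem_insert, mem_singleton] at hz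
        rcases hz with rfl | rfl | rfl | rfl
        · exact mem_compl.1 ha
        · exact mem_compl.1 hb
        · exact mem_compl.1 hx.2.2
        · exact mem_compl.1 hy.2.2
      · rw [sum_insert, sum_insert, sum_insert, sum_singleton, ← hyx]
        · abel
        · simpa using hne
        · simp only [mem_insert, mem_singleton, not_or]
          exact ⟨fun h => hx.1 h.symm, fun h => hy.1 h.symm⟩
        · simp only [mem_insert, mem_singleton, not_or]
          exact ⟨hab, fun h => hx.2.1 h.symm, fun h => hy.2.1 h.symm⟩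
    omega
  have hsum : ∑ t : A, (univ.filter fun x : A => 3 • t - a - b - x = x).card ≤
      Fintype.card A := by
    rw [← card_sigma, ← card_univ (α := A)]
    apply card_le_card_of_injOn (fun p => p.1 - p.2) (fun p _ => mem_coe.2 (mem_univ _))
    intro p hp q hq h
    simp only [coe_sigma, Set.mem_sigma_iff, coe_univ, Set.mem_univ, true_and, coe_filter,
      mem_univ, Set.mem_ofPred_eq] at hp hq
    have h' : p.1 - p.2 = q.1 - q.2 := h
    have e1 : p.2 = a + b - 3 • (p.1 - p.2) := by
      have h5 := sub_eq_iff_eq_add.1 hp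
      have h6 := sub_eq_iff_eq_add.1 h5
      have h7 := sub_eq_iff_eq_add.1 h6
      rw [smul_sub, h7]; abel
    have e2 : q.2 = a + b - 3 • (q.1 - q.2) := by
      have h5 := sub_eq_iff_eq_add.1 hq
      have h6 := sub_eq_iff_eq_add.1 h5
      have h7 := sub_eq_iff_eq_add.1 h6
      rw [smul_sub, h7]; abel
    have e3 : p.2 = q.2 := by rw [e1, e2, h']
    have e4 : p.1 = q.1 := by
      have := h'
      rw [e3] at this
      exact sub_left_injective this
    exact Sigma.ext e4 (heq_of_eq e3)
  have hall : Fintype.card A * (2 * K'.card) ≤ Fintype.card A * (Fintype.card A + 1) := by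
    have h1 : ∑ _t : A, 2 * K'.card ≤ ∑ t : A, (Fintype.card A +
      (univ.filter fun x : A => 3 • t - a - b - x = x).card) := sum_le_sum fun t _ => key t
    rw [sum_const, sum_add_distrib, sum_const, card_univ, smul_eq_mul, smul_eq_mul] at h1
    rw [mul_add, mul_one]
    omega
  have hpos : 0 < Fintype.card A := Fintype.card_pos_iff.2 ⟨a⟩
  have := Nat.le_of_mul_le_mul_left hall hpos
  omega

/-- if the order is prime to three, then the complement has at most three elements -/
theorem coprime_three {S : Finset A} (hS : Covers S) (h3 : ¬ 3 ∣ Fintype.card A) :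
    Sᶜ.card ≤ 3 := by
  by_contra h
  obtain ⟨R, hR, hR4⟩ := exists_subset_card_eq (show 4 ≤ Sᶜ.card by omega)
  have hco : (Nat.card A).Coprime 3 := by
    rw [Nat.card_eq_fintype_card]
    exact ((Nat.Prime.coprime_iff_not_dvd Nat.prime_three).2 h3).symm
  obtain ⟨t, ht⟩ := (nsmulCoprime hco).surjective (∑ x ∈ R, x)
  exact no_four hS R hR4 (fun x hx => mem_compl.1 (hR hx)) t ht.symm

/-- sum-free sets in groups of exponent three -/
theorem sumfree {B : Type} [AddCommGroup B] [Fintype B] [DecidableEq B] (h3 : ∀ b : B, 3 • b = 0)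
    (F : Finset B) (hF : ∀ x ∈ F, ∀ y ∈ F, ∀ z ∈ F, x ≠ y + z) : 3 * F.card ≤ Fintype.card B := by
  rcases F.eq_empty_or_nonempty with rfl | ⟨t, ht⟩
  · simp
  have hinj1 : Function.Injective fun x : B => x + t := fun x y h => by simpa using h
  have hinj2 : Function.Injective fun x : B => x - t := fun x y h => by simpa using h
  have d1 : Disjoint F (F.image fun x => x + t) := by
    rw [disjoint_left]
    intro x hx hx'
    obtain ⟨y, hy, rfl⟩ := mem_image.1 hx'
    exact hF _ hx y hy t ht rfl
  have d2 : Disjoint F (F.image fun x => x - t) := by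
    rw [disjoint_left]
    intro x hx hx'
    obtain ⟨y, hy, rfl⟩ := mem_image.1 hx'
    exact hF y hy (y - t) hx t ht (by abel)
  have d3 : Disjoint (F.image fun x => x + t) (F.image fun x => x - t) := by
    rw [disjoint_left]
    intro x hx hx'
    obtain ⟨y, hy, rfl⟩ := mem_image.1 hx
    obtain ⟨z, hz, hzy⟩ := mem_image.1 hx'
    have h5 : z - t = y + t := hzy
    have h6 : z = y + t + t := by rw [sub_eq_iff_eq_add] at h5; exact h5
    have h7 : y = z + t := by
      rw [h6]
      have := h3 t
      have h8 : y + t + t + t = y + 3 • t := by abel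
      rw [h8, this, add_zero]
    exact hF y hy z hz t ht h7
  have h4 : ((F ∪ F.image fun x => x + t) ∪ F.image fun x => x - t).card = 3 * F.card := by
    rw [card_union_of_disjoint (disjoint_union_left.2 ⟨d2, d3⟩), card_union_of_disjoint d1,
      card_image_of_injective _ hinj1, card_image_of_injective _ hinj2]
    ring
  rw [← h4]
  exact card_le_univ _

/-- the complement of a covering set has at most `n / 3 + 3 |A / 3A|` elements -/
theorem third {S : Finset A} (hS : Covers S) :
    3 * Sᶜ.card ≤ Fintype.card A + 9 * (nsmulAddMonoidHom 3 : A →+ A).range.index := by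
  classical
  set M : AddSubgroup A := (nsmulAddMonoidHom 3 : A →+ A).range with hM
  have : Fintype (A ⧸ M) := Fintype.ofFinite _
  let π : A → A ⧸ M := fun x => (x : A ⧸ M)
  let F : Finset (A ⧸ M) := univ.filter fun c => 4 ≤ ((Sᶜ).filter fun x => π x = c).card
  have h3 : ∀ b : A ⧸ M, 3 • b = 0 := by
    intro b
    induction b using QuotientAddGroup.induction_on with
    | H x =>
      rw [← QuotientAddGroup.mk_nsmul, QuotientAddGroup.eq_zero_iff]
      exact ⟨x, rfl⟩
  have hF : ∀ x ∈ F, ∀ y ∈ F, ∀ z ∈ F, x ≠ y + z := by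
    intro x hx y hy z hz hxyz
    simp only [F, mem_filter, mem_univ, true_and] at hx hy hz
    obtain ⟨x1, hx1, x2, hx2, hx12⟩ := one_lt_card.1 (show 1 <
      ((Sᶜ).filter fun w => π w = x).card by omega)
    obtain ⟨y1, hy1, hy1'⟩ := exists_mem_notMem_of_card_lt_card (s := {x1, x2})
      (t := (Sᶜ).filter fun w => π w = y) (lt_of_le_of_lt card_le_two (by omega))
    obtain ⟨z1, hz1, hz1'⟩ := exists_mem_notMem_of_card_lt_card (s := {x1, x2, y1})
      (t := (Sᶜ).filter fun w => π w = z) (lt_of_le_of_lt card_le_three (by omega))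
    rw [mem_filter] at hx1 hx2 hy1 hz1
    simp only [mem_insert, mem_singleton, not_or] at hy1' hz1'
    have hR : ({x1, x2, y1, z1} : Finset A).card = 4 := by
      rw [card_insert_of_notMem, card_insert_of_notMem, card_insert_of_notMem, card_singleton]
      · simpa using (Ne.symm hz1'.2.2)
      · simp only [mem_insert, mem_singleton, not_or]
        exact ⟨Ne.symm hy1'.2, Ne.symm hz1'.2.1⟩
      · simp only [mem_insert, mem_singleton, not_or]
        exact ⟨hx12, Ne.symm hy1'.1, Ne.symm hz1'.1⟩
    have hsum : ∑ w ∈ ({x1, x2, y1, z1} : Finset A), w = x1 + (x2 + (y1 + z1)) := by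
      rw [sum_insert, sum_insert, sum_insert, sum_singleton]
      · simpa using (Ne.symm hz1'.2.2)
      · simp only [mem_insert, mem_singleton, not_or]
        exact ⟨Ne.symm hy1'.2, Ne.symm hz1'.2.1⟩
      · simp only [mem_insert, mem_singleton, not_or]
        exact ⟨hx12, Ne.symm hy1'.1, Ne.symm hz1'.1⟩
    have hmem : x1 + (x2 + (y1 + z1)) ∈ M := by
      rw [← QuotientAddGroup.eq_zero_iff]
      have e1 : ((x1 + (x2 + (y1 + z1)) : A) : A ⧸ M) = x + (x + (y + z)) := by
        have a1 : (x1 : A ⧸ M) = x := hx1.2
        have a2 : (x2 : A ⧸ M) = x := hx2.2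
        have a3 : (y1 : A ⧸ M) = y := hy1.2
        have a4 : (z1 : A ⧸ M) = z := hz1.2
        rw [QuotientAddGroup.mk_add, QuotientAddGroup.mk_add, QuotientAddGroup.mk_add, a1, a2, a3,
          a4]
      rw [e1, ← hxyz]
      have := h3 x
      have h8 : x + (x + x) = 3 • x := by abel
      rw [h8, this]
    obtain ⟨t, ht⟩ := hmem
    refine no_four hS _ hR ?_ t ?_
    · intro w hw
      simp only [mem_insert, mem_singleton] at hw
      rcases hw with rfl | rfl | rfl | rfl
      · exact mem_compl.1 hx1.1
      · exact mem_compl.1 hx2.1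
      · exact mem_compl.1 hy1.1
      · exact mem_compl.1 hz1.1
    · rw [hsum, ← ht]; rfl
  have hFcard := sumfree h3 F hF
  have hidx : M.index = Fintype.card (A ⧸ M) := by
    rw [AddSubgroup.index, Nat.card_eq_fintype_card]
  have hcard : Fintype.card (A ⧸ M) * Nat.card M = Fintype.card A := by
    rw [← hidx, mul_comm, AddSubgroup.card_mul_index, Nat.card_eq_fintype_card]
  have hfib : ∀ c : A ⧸ M, ((Sᶜ).filter fun x => π x = c).card ≤ Nat.card M := by
    intro c
    induction c using QuotientAddGroup.induction_on with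
    | H x0 =>
      rw [Nat.card_eq_fintype_card, ← card_univ]
      refine card_le_card_of_surjOn (fun m : M => x0 + (m : A)) ?_
      intro x hx
      simp only [coe_filter, Set.mem_ofPred_eq] at hx
      have h5 : -x0 + x ∈ M := QuotientAddGroup.eq.1 (hx.2.symm)
      exact ⟨⟨-x0 + x, h5⟩, by simp, by simp⟩
  have hK : Sᶜ.card = ∑ c : A ⧸ M, ((Sᶜ).filter fun x => π x = c).card :=
    card_eq_sum_card_fiberwise (fun x _ => mem_coe.2 (mem_univ _))
  have hle : ∑ c : A ⧸ M, ((Sᶜ).filter fun x => π x = c).card ≤
      ∑ c : A ⧸ M, ((if c ∈ F then Nat.card M else 0) + 3) := by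
    apply sum_le_sum
    intro c _
    by_cases hc : c ∈ F
    · rw [if_pos hc]; exact (hfib c).trans (Nat.le_add_right _ _)
    · rw [if_neg hc]
      simp only [F, mem_filter, mem_univ, true_and] at hc
      omega
  rw [sum_add_distrib, sum_ite_mem, univ_inter, sum_const, sum_const, card_univ, smul_eq_mul,
    smul_eq_mul] at hle
  have h9 : 3 * F.card * Nat.card M ≤ Fintype.card (A ⧸ M) * Nat.card M :=
    Nat.mul_le_mul_right _ hFcard
  rw [hcard] at h9
  rw [hidx, hK]
  nlinarith

/-- the sums of the triples for a homomorphism onto `ZMod 3` -/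
theorem covers_hom (χ : A →+ ZMod 3) : Covers (univ.filter fun x : A => χ x ≠ 1) := by
  intro Q hQ
  by_contra hcon
  push Not at hcon
  have h1 : ∀ x ∈ Q, χ x = χ (∑ y ∈ Q, y) - 1 := by
    intro x hx
    have hc : (Q.erase x).card = 3 := by rw [card_erase_of_mem hx, hQ]
    have h2 : ∑ y ∈ Q.erase x, y = (∑ y ∈ Q, y) - x := by
      rw [eq_sub_iff_add_eq]
      exact sum_erase_add Q _ hx
    have h3 : ¬ (χ (∑ y ∈ Q.erase x, y) ≠ 1) := by
      intro h4
      refine hcon (Q.erase x) ?_ (erase_subset _ _)
      rw [mem_sumTriples]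
      exact ⟨hc, by simpa using h4⟩
    rw [not_not, h2, map_sub] at h3
    rw [← h3]; ring
  have h2 : χ (∑ y ∈ Q, y) = 4 * (χ (∑ y ∈ Q, y) - 1) := by
    conv_lhs => rw [map_sum, sum_congr rfl h1, sum_const, hQ]
    simp
  generalize χ (∑ y ∈ Q, y) = τ at h2
  revert h2
  revert τ
  decide

theorem card_hom (χ : A →+ ZMod 3) (hχ : Function.Surjective χ) :
    3 * (univ.filter fun x : A => χ x ≠ 1).card = 2 * Fintype.card A := by
  classical
  obtain ⟨g, hg⟩ := hχ 1
  have hshift : ∀ c : ZMod 3, (univ.filter fun x : A => χ x = c + 1).card =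
      (univ.filter fun x : A => χ x = c).card := by
    intro c
    apply card_bij (fun x _ => x - g)
    · intro x hx
      simp only [mem_filter, mem_univ, true_and] at hx ⊢
      rw [map_sub, hx, hg]; ring
    · intro x _ y _ h
      simpa using h
    · intro y hy
      simp only [mem_filter, mem_univ, true_and] at hy
      exact ⟨y + g, by simp [hy, hg], by simp⟩
  have h0 := hshift 0
  have h1 := hshift 1
  have htot : Fintype.card A = (univ.filter fun x : A => χ x = 0).card +
      (univ.filter fun x : A => χ x = 1).card + (univ.filter fun x : A => χ x = 2).card := by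
    rw [← card_univ, card_eq_sum_card_fiberwise (f := χ) (t := univ)
      (fun x _ => mem_coe.2 (mem_univ _))]
    have hu : (univ : Finset (ZMod 3)) = {0, 1, 2} := by decide
    have h01 : (0 : ZMod 3) ∉ ({1, 2} : Finset (ZMod 3)) := by decide
    have h12 : (1 : ZMod 3) ∉ ({2} : Finset (ZMod 3)) := by decide
    rw [hu, sum_insert h01, sum_insert h12, sum_singleton, add_assoc]
  have hne : (univ.filter fun x : A => χ x ≠ 1).card + (univ.filter fun x : A => χ x = 1).card =
      Fintype.card A := by
    rw [add_comm, card_filter_add_card_filter_not, card_univ]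
  have e2 : (1 + 1 : ZMod 3) = 2 := by decide
  rw [zero_add] at h0
  rw [e2] at h1
  omega

/-- all triples -/
theorem card_total (S : Finset A) :
    (sumTriples S).card + (sumTriples Sᶜ).card = (Fintype.card A).choose 3 := by
  classical
  have h : (powersetCard 3 (univ : Finset A)).card = (Fintype.card A).choose 3 := by
    rw [card_powersetCard, card_univ]
  rw [← h, ← card_union_of_disjoint]
  · congr 1
    ext e
    simp only [mem_union, mem_sumTriples, mem_compl, mem_powersetCard, subset_univ, true_and]
    tauto
  · rw [disjoint_left]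
    intro e h1 h2
    rw [mem_sumTriples] at h1 h2
    exact (mem_compl.1 h2.2) h1.2

end Pool.Agent.Helper394.CS
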