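import Pool.Agent.Helper394.CS.Base

/-!
# Turán's (3,4)-conjecture for the sum triples of finite abelian groups

Let `A` be a finite abelian group of order `n`, `S` a set of elements of `A`, and `T` the set of the
triples of elements of `A` with sum in `S`. Suppose that every four elements of `A` contain a triple
of `T`. Then `T` has density at least `1/2`; the density is at least `2/3 - o(1)` if the order of
`3 A` tends to infinity, which is best possible, and `1 - o(1)` if `n` is prime to three.

Proof: four different elements outside `S` never have a sum of the form `3 t` (consider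
`t - a, t - b, t - c, t - d`). Hence for two elements `a, b` outside `S` and almost all `x` outside
`S` the element `3 t - a - b - x` is in `S`, where `t` is chosen such that this reflection has at
most one fixed point. The classes modulo `3 A` with at least four elements outside `S` form a
sum-free set in a group of exponent three, so at most a third of the classes.
-/

set_option autoImplicit false

open Finset

namespace Pool.Agent.Helper394.CS.Main

/-- The triples of elements of `A` whose sum is in `S`. -/
def sumTriples {A : Type} [AddCommGroup A] [Fintype A] [DecidableEq A] (S : Finset A) :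
    Finset (Finset A) :=
  univ.filter fun e => e.card = 3 ∧ ∑ x ∈ e, x ∈ S

/-- Every four elements of `A` contain a triple of `T`. -/
def Covering {A : Type} (T : Finset (Finset A)) : Prop :=
  ∀ Q : Finset A, Q.card = 4 → ∃ e ∈ T, e ⊆ Q

/-- The number of triples of Turán's construction on `n` vertices: `k(k-1)(2k-1)`, `k²(2k-1)`,
`k²(2k+1)` for `n = 3k`, `3k+1`, `3k+2`. -/
def turan (n : ℕ) : ℕ :=
  if n % 3 = 0 then (n / 3) * (n / 3 - 1) * (2 * (n / 3) - 1)
  else if n % 3 = 1 then (n / 3) ^ 2 * (2 * (n / 3) - 1)
  else (n / 3) ^ 2 * (2 * (n / 3) + 1)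

theorem turan_le (n : ℕ) (hn : 33 ≤ n) : 12 * turan n ≤ n * (n - 3) * (n - 5) := by
  obtain ⟨m, rfl⟩ : ∃ m, n = m + 33 := ⟨n - 33, by omega⟩
  have h1 : m + 33 - 3 = m + 30 := by omega
  have h2 : m + 33 - 5 = m + 28 := by omega
  rw [h1, h2]
  unfold turan
  split_ifs with h3 h4
  · obtain ⟨j, hj⟩ : ∃ j, m = 3 * j := ⟨m / 3, by omega⟩
    subst hj
    have e1 : (3 * j + 33) / 3 = j + 11 := by omega
    have e2 : j + 11 - 1 = j + 10 := by omega
    have e3 : 2 * (j + 11) - 1 = 2 * j + 21 := by omega
    rw [e1, e2, e3]
    nlinarith [Nat.zero_le j, Nat.zero_le (j ^ 2), Nat.zero_le (j ^ 3)]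
  · obtain ⟨j, hj⟩ : ∃ j, m = 3 * j + 1 := ⟨m / 3, by omega⟩
    subst hj
    have e1 : (3 * j + 1 + 33) / 3 = j + 11 := by omega
    have e3 : 2 * (j + 11) - 1 = 2 * j + 21 := by omega
    rw [e1, e3]
    nlinarith [Nat.zero_le j, Nat.zero_le (j ^ 2), Nat.zero_le (j ^ 3)]
  · obtain ⟨j, hj⟩ : ∃ j, m = 3 * j + 2 := ⟨m / 3, by omega⟩
    subst hj
    have e1 : (3 * j + 2 + 33) / 3 = j + 11 := by omega
    rw [e1]
    nlinarith [Nat.zero_le j, Nat.zero_le (j ^ 2), Nat.zero_le (j ^ 3)]

theorem result :
    (∀ (A : Type) [AddCommGroup A] [Fintype A] [DecidableEq A] (S : Finset A),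
      Covering (sumTriples S) →
        Fintype.card A * (Fintype.card A - 3) * (Fintype.card A - 5) ≤
          12 * (sumTriples S).card ∧
        (33 ≤ Fintype.card A → turan (Fintype.card A) ≤ (sumTriples S).card) ∧
        Fintype.card A * (Fintype.card A - 3) *
            (2 * Fintype.card A - 9 * (nsmulAddMonoidHom 3 : A →+ A).range.index) ≤
          18 * (sumTriples S).card ∧
        (¬ 3 ∣ Fintype.card A →
          Fintype.card A * (Fintype.card A - 3) ^ 2 ≤ 6 * (sumTriples S).card)) ∧
    -- the density `2/3` is attained
    (∀ (A : Type) [AddCommGroup A] [Fintype A] [DecidableEq A] (χ : A →+ ZMod 3),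
      Function.Surjective χ →
        Covering (sumTriples (univ.filter fun x : A => χ x ≠ 1)) ∧
        18 * (sumTriples (univ.filter fun x : A => χ x ≠ 1)).card +
            Fintype.card A ^ 2 * (Fintype.card A - 3) ≤
          3 * (Fintype.card A * (Fintype.card A - 1) * (Fintype.card A - 2))) := by
  refine ⟨?_, ?_⟩
  · intro A _ _ _ S hS
    have hS' : Pool.Agent.Helper394.CS.Covers S := hS
    have hT : sumTriples S = Pool.Agent.Helper394.CS.sumTriples S := rfl
    have h0 := Pool.Agent.Helper394.CS.card_lower S
    rw [← hT] at h0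
    have h1 := Pool.Agent.Helper394.CS.half hS'
    have h2 := Pool.Agent.Helper394.CS.third hS'
    have hc : S.card + Sᶜ.card = Fintype.card A := card_add_card_compl S
    have hfirst : Fintype.card A * (Fintype.card A - 3) * (Fintype.card A - 5) ≤
        12 * (sumTriples S).card := by
      have h3 : Fintype.card A - 5 ≤ 2 * S.card := by omega
      calc Fintype.card A * (Fintype.card A - 3) * (Fintype.card A - 5)
          ≤ Fintype.card A * (Fintype.card A - 3) * (2 * S.card) := Nat.mul_le_mul_left _ h3
        _ = 2 * (S.card * (Fintype.card A * (Fintype.card A - 3))) := by ring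
        _ ≤ 2 * (6 * (sumTriples S).card) := Nat.mul_le_mul_left _ h0
        _ = 12 * (sumTriples S).card := by ring
    refine ⟨hfirst, ?_, ?_, ?_⟩
    · intro hn
      have := (turan_le _ hn).trans hfirst
      omega
    · have h3 : 2 * Fintype.card A - 9 * (nsmulAddMonoidHom 3 : A →+ A).range.index ≤
          3 * S.card := by omega
      calc Fintype.card A * (Fintype.card A - 3) *
            (2 * Fintype.card A - 9 * (nsmulAddMonoidHom 3 : A →+ A).range.index)
          ≤ Fintype.card A * (Fintype.card A - 3) * (3 * S.card) := Nat.mul_le_mul_left _ h3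
        _ = 3 * (S.card * (Fintype.card A * (Fintype.card A - 3))) := by ring
        _ ≤ 3 * (6 * (sumTriples S).card) := Nat.mul_le_mul_left _ h0
        _ = 18 * (sumTriples S).card := by ring
    · intro h3
      have h4 := Pool.Agent.Helper394.CS.coprime_three hS' h3
      have h5 : Fintype.card A - 3 ≤ S.card := by omega
      calc Fintype.card A * (Fintype.card A - 3) ^ 2
          = (Fintype.card A - 3) * (Fintype.card A * (Fintype.card A - 3)) := by ring
        _ ≤ S.card * (Fintype.card A * (Fintype.card A - 3)) := Nat.mul_le_mul_right _ h5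
        _ ≤ 6 * (sumTriples S).card := h0
  · intro A _ _ _ χ hχ
    refine ⟨Pool.Agent.Helper394.CS.covers_hom χ, ?_⟩
    set S : Finset A := univ.filter fun x : A => χ x ≠ 1 with hSdef
    have hT : sumTriples S = Pool.Agent.Helper394.CS.sumTriples S := rfl
    have h1 : 3 * S.card = 2 * Fintype.card A := Pool.Agent.Helper394.CS.card_hom χ hχ
    have hc : S.card + Sᶜ.card = Fintype.card A := card_add_card_compl S
    have h2 := Pool.Agent.Helper394.CS.card_total S
    have h3 := Pool.Agent.Helper394.CS.card_lower Sᶜ
    rw [← hT] at h2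
    have h4 : 3 * Sᶜ.card = Fintype.card A := by omega
    have h5 : Fintype.card A ^ 2 * (Fintype.card A - 3) ≤
        18 * (Pool.Agent.Helper394.CS.sumTriples Sᶜ).card := by
      calc Fintype.card A ^ 2 * (Fintype.card A - 3)
          = 3 * (Sᶜ.card * (Fintype.card A * (Fintype.card A - 3))) := by
            rw [← mul_assoc, h4]; ring
        _ ≤ 3 * (6 * (Pool.Agent.Helper394.CS.sumTriples Sᶜ).card) := Nat.mul_le_mul_left _ h3
        _ = 18 * (Pool.Agent.Helper394.CS.sumTriples Sᶜ).card := by ring
    have h6 : 6 * (Fintype.card A).choose 3 =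
        Fintype.card A * (Fintype.card A - 1) * (Fintype.card A - 2) := by
      have h7 := Nat.descFactorial_eq_factorial_mul_choose (Fintype.card A) 3
      have h8 : Nat.factorial 3 = 6 := rfl
      rw [h8] at h7
      rw [← h7]
      simp only [Nat.descFactorial]
      rw [Nat.sub_zero]
      ring
    rw [← h6]
    omega

end Pool.Agent.Helper394.CS.Main
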